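import Pool.Agent.Results.MP_3ad543_lc.Exchange

/-!
For every Boolean function `f` and every `ℓ ≥ 1`,
`bs_ℓ(f) ≤ 4^(ℓ-1) max(s_0(f), s_1(f)) min(s_0(f), s_1(f))^(ℓ-1)`.
-/

namespace Pool.Agent.Results.MP_3ad543_lc.EllBlocks

open Finset Pool.Agent.Sens

/-- `bs_ℓ(f)`: the largest number of pairwise disjoint nonempty sensitive blocks of size at
most `ℓ` at any input. -/
noncomputable def bsEll {n : ℕ} (f : (Fin n → Bool) → Bool) (ℓ : ℕ) : ℕ :=
  univ.sup (bsAt f ℓ)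

lemma bsVal_bound {n : ℕ} (f : (Fin n → Bool) → Bool) (v : Bool)
    (hv : sensVal f v ≤ sensVal f (!v)) (ℓ : ℕ) (w : Bool) :
    bsVal f ((ℓ + 1 : ℕ) : ℕ∞) w ≤ 4 ^ ℓ * (sensVal f (!v) * sensVal f v ^ ℓ) := by
  induction ℓ generalizing w with
  | zero =>
    have h1 : (((0 : ℕ) + 1 : ℕ) : ℕ∞) = 1 := by simp
    rw [h1, Exchange.bsVal_one]
    simp only [pow_zero, one_mul, mul_one]
    by_cases h : w = v
    · rw [h]; exact hv
    · have : w = !v := by cases w <;> cases v <;> simp_all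
      rw [this]
  | succ ℓ ih =>
    by_cases h : w = v
    · subst h
      have h2 := Exchange.result n f w ((ℓ + 1 : ℕ) : ℕ∞) 1 (by simp) le_rfl
      rw [Exchange.bsVal_one] at h2
      have h3 : (((ℓ + 1 : ℕ) : ℕ∞) + 1) = ((ℓ + 1 + 1 : ℕ) : ℕ∞) := by push_cast; ring
      rw [h3] at h2
      have h4 := ih (!w)
      calc bsVal f ((ℓ + 1 + 1 : ℕ) : ℕ∞) w
          ≤ 4 * bsVal f ((ℓ + 1 : ℕ) : ℕ∞) (!w) * sensVal f w := by omega
        _ ≤ 4 * (4 ^ ℓ * (sensVal f (!w) * sensVal f w ^ ℓ)) * sensVal f w := by gcongr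
        _ = 4 ^ (ℓ + 1) * (sensVal f (!w) * sensVal f w ^ (ℓ + 1)) := by ring
    · have hw : w = !v := by cases w <;> cases v <;> simp_all
      subst hw
      have h2 := Exchange.result n f (!v) 1 ((ℓ + 1 : ℕ) : ℕ∞) le_rfl (by simp)
      rw [Exchange.bsVal_one, Bool.not_not] at h2
      have h3 : (1 + ((ℓ + 1 : ℕ) : ℕ∞)) = ((ℓ + 1 + 1 : ℕ) : ℕ∞) := by push_cast; ring
      rw [h3] at h2
      have h4 := ih (!v)
      calc bsVal f ((ℓ + 1 + 1 : ℕ) : ℕ∞) (!v)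
          ≤ 4 * sensVal f v * bsVal f ((ℓ + 1 : ℕ) : ℕ∞) (!v) := by omega
        _ ≤ 4 * sensVal f v * (4 ^ ℓ * (sensVal f (!v) * sensVal f v ^ ℓ)) := by gcongr
        _ = 4 ^ (ℓ + 1) * (sensVal f (!v) * sensVal f v ^ (ℓ + 1)) := by ring

/-- The bound on `ℓ`-block sensitivity in terms of the two one-sided sensitivities. -/
theorem result (n : ℕ) (f : (Fin n → Bool) → Bool) (ℓ : ℕ) (hℓ : 1 ≤ ℓ) :
    bsEll f ℓ ≤ 4 ^ (ℓ - 1) * max (sensVal f false) (sensVal f true) *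
      min (sensVal f false) (sensVal f true) ^ (ℓ - 1) := by
  obtain ⟨m, rfl⟩ : ∃ m, ℓ = m + 1 := ⟨ℓ - 1, by omega⟩
  simp only [Nat.add_sub_cancel]
  unfold bsEll
  apply Finset.sup_le
  intro x _
  refine (bsAt_le_bsVal f _ (rfl : f x = f x)).trans ?_
  rcases le_total (sensVal f false) (sensVal f true) with h | h
  · rw [max_eq_right h, min_eq_left h, mul_assoc]
    exact bsVal_bound f false h m (f x)
  · rw [max_eq_left h, min_eq_right h, mul_assoc]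
    exact bsVal_bound f true h m (f x)

end Pool.Agent.Results.MP_3ad543_lc.EllBlocks
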