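import Pool.Agent.Sens.Exchange

/-!
For every Boolean function `f`, every value `v` and all `p, q ∈ {1, 2, …, ∞}`,
`bs_{p+q}^v(f) + 2 bs_q^v(f) ≤ 4 bs_p^{1-v}(f) bs_q^v(f)`.
With `p = ∞`, `q = 1` this is `bs_v(f) ≤ (4 bs_{1-v}(f) - 2) s_v(f)`.
-/

namespace Pool.Agent.Results.MP_3ad543_lc.Exchange

open Finset Pool.Agent.Sens

/-- Sanity check: `bs_1(f, x)` is the number of sensitive bits. -/
lemma bsAt_one {n : ℕ} (f : (Fin n → Bool) → Bool) (x : Fin n → Bool) :
    bsAt f 1 x = sensAt f x := by
  classical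
  apply le_antisymm
  · obtain ⟨B, hB1, hB2, hB3, hB4⟩ := bsAt_mem f 1 x
    have hsing : ∀ j, ∃ y, B j = {y} := by
      intro j
      have h1 : (B j).card ≤ 1 := by exact_mod_cast hB2 j
      have h2 := (hB1 j).card_pos
      exact Finset.card_eq_one.mp (by omega)
    choose y hy using hsing
    have hinj : Function.Injective y := by
      intro i j hij
      by_contra hne
      have := hB3 i j hne
      rw [hy i, hy j, hij] at this
      simp at this
    have : (univ.image y).card ≤ sensAt f x := by
      apply Finset.card_le_card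
      intro i hi
      obtain ⟨j, -, rfl⟩ := Finset.mem_image.mp hi
      simp only [mem_filter, mem_univ, true_and]
      rw [← hy j]
      exact hB4 j
    rwa [Finset.card_image_of_injective _ hinj, Finset.card_univ, Fintype.card_fin] at this
  · apply card_le_bsAt f 1 x _ (fun i => {i})
    · simp
    · simp
    · intro i _ j _ hij
      simpa using hij
    · intro j hj
      simpa using hj

/-- Sanity check: `bs_1^v(f) = s_v(f)`. -/
lemma bsVal_one {n : ℕ} (f : (Fin n → Bool) → Bool) (v : Bool) :
    bsVal f 1 v = sensVal f v := by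
  unfold bsVal sensVal
  congr 1
  funext x
  exact bsAt_one f x

/-- The exchange inequality. -/
theorem result (n : ℕ) (f : (Fin n → Bool) → Bool) (v : Bool) (p q : ℕ∞)
    (hp : 1 ≤ p) (hq : 1 ≤ q) :
    bsVal f (p + q) v + 2 * bsVal f q v ≤ 4 * bsVal f p (!v) * bsVal f q v :=
  exchange f v p q hp hq

/-- The case `p = ∞`, `q = 1`. -/
lemma cross (n : ℕ) (f : (Fin n → Bool) → Bool) (v : Bool) :
    bsVal f ⊤ v + 2 * sensVal f v ≤ 4 * bsVal f ⊤ (!v) * sensVal f v := by
  have := result n f v ⊤ 1 le_top le_rfl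
  rwa [bsVal_one, top_add] at this

end Pool.Agent.Results.MP_3ad543_lc.Exchange
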